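import Pool.Agent.Helper22.G4.Cone

/-! # G4-A4: adjacency after adding vertices -/

namespace Pool.Agent.Helper16.G4

open Submodule Pool.Agent.Helper22.G4

variable {V : Type*}

/-- the key fact for vertices -/
private lemma key_vert [DecidableEq V] {A : Finset V} {𝓩 : Set (Set V)} {Vz : Set (Set V)}
    {ez : Finset V} (heA : ez ⊆ A) (he : ∀ Z ∈ Vz, (ez : Set V) ⊆ Z) (he2 : 2 ≤ ez.card)
    {u : V} (hu : FVert A 𝓩 u) : ∃ Z ∈ 𝓩, Z ∉ Vz ∧ u ∈ Z := by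
  have h1 : 1 < ez.card := he2
  obtain ⟨b, hb, hbu⟩ := Finset.exists_mem_ne h1 u
  obtain ⟨Z, hZ, huZ, hbZ⟩ := hu b (heA hb) hbu
  exact ⟨Z, hZ, fun h => hbZ (he Z h hb), huZ⟩

/-- the key fact for edges -/
private lemma key_edge [DecidableEq V] {A : Finset V} {𝓩 : Set (Set V)} {Vz : Set (Set V)}
    {ez : Finset V} (heA : ez ⊆ A) (he : ∀ Z ∈ Vz, (ez : Set V) ⊆ Z) (he2 : 2 ≤ ez.card)
    (hx : ez.card = 2 → ∃ Z ∈ 𝓩, Z ∉ Vz ∧ (ez : Set V) ⊆ Z)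
    {u w : V} (huw : u ≠ w) (hadj : FAdj A 𝓩 u w) : ∃ Z ∈ 𝓩, Z ∉ Vz ∧ u ∈ Z ∧ w ∈ Z := by
  by_cases hsub : ez ⊆ {u, w}
  · have hcard : ({u, w} : Finset V).card = 2 := Finset.card_pair huw
    have h2 : ez.card = 2 := le_antisymm (hcard ▸ Finset.card_le_card hsub) he2
    have heq : ez = {u, w} := Finset.eq_of_subset_of_card_le hsub (by rw [hcard, h2])
    obtain ⟨Z, hZ, hZV, hsZ⟩ := hx h2
    refine ⟨Z, hZ, hZV, hsZ ?_, hsZ ?_⟩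
    · simp [heq]
    · simp [heq]
  · obtain ⟨b, hb, hbn⟩ := Finset.not_subset.1 hsub
    have hbu : b ≠ u := fun h => hbn (by simp [h])
    have hbw : b ≠ w := fun h => hbn (by simp [h])
    obtain ⟨Z, hZ, huZ, hwZ, hbZ⟩ := hadj b (heA hb) hbu hbw
    exact ⟨Z, hZ, fun h => hbZ (he Z h hb), huZ, hwZ⟩

/-- If for every new vertex some member not visible from it contains `S`, then there is a member
of the new family containing `S` and avoiding a given new vertex. -/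
private lemma avoid_new [DecidableEq V] {A B : Finset V} (hAB : Disjoint A B) {𝓩 : Set (Set V)}
    (hZ : ∀ Z ∈ 𝓩, Z ⊆ A) (Vis : V → Set (Set V))
    (S : Set V)
    (hkey : ∀ z ∈ B, ∃ Z ∈ 𝓩, Z ∉ Vis z ∧ S ⊆ Z) {t : V} (ht : t ∈ B) :
    ∃ Z ∈ addFam 𝓩 B Vis, S ⊆ Z ∧ t ∉ Z := by
  have hnA : ∀ Z ∈ 𝓩, t ∉ Z := fun Z h1 h2 =>
    (Finset.disjoint_left.1 hAB) (by simpa using hZ Z h1 h2) ht
  obtain ⟨Z, hZm, hZV, hSZ⟩ := hkey t ht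
  by_cases hvis : ∀ z ∈ B, Z ∉ Vis z
  · exact ⟨Z, Or.inl ⟨hZm, hvis⟩, hSZ, hnA Z hZm⟩
  · push Not at hvis
    obtain ⟨y, hyB, hyZ⟩ := hvis
    have hyt : y ≠ t := fun h => hZV (h ▸ hyZ)
    obtain ⟨Z₂, hZ₂, hZ₂V, hSZ₂⟩ := hkey y hyB
    refine ⟨(Z ∩ Z₂) ∪ {y}, Or.inr ⟨y, hyB, Z, hZm, hyZ, Z₂, hZ₂, hZ₂V, rfl⟩, ?_, ?_⟩
    · exact fun s hs => Or.inl ⟨hSZ hs, hSZ₂ hs⟩
    · rintro (h | h)
      · exact hnA Z hZm h.1
      · exact hyt (by simpa using h.symm)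

/-- avoiding an old vertex -/
private lemma avoid_old [DecidableEq V] {A B : Finset V} (hAB : Disjoint A B) {𝓩 : Set (Set V)}
    (Vis : V → Set (Set V)) (S : Set V)
    (hkey : ∀ z ∈ B, ∃ Z ∈ 𝓩, Z ∉ Vis z ∧ S ⊆ Z) {t : V} (ht : t ∈ A)
    (hS : ∃ Z ∈ 𝓩, S ⊆ Z ∧ t ∉ Z) :
    ∃ Z ∈ addFam 𝓩 B Vis, S ⊆ Z ∧ t ∉ Z := by
  obtain ⟨Z, hZm, hSZ, htZ⟩ := hS
  by_cases hvis : ∀ z ∈ B, Z ∉ Vis z
  · exact ⟨Z, Or.inl ⟨hZm, hvis⟩, hSZ, htZ⟩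
  · push Not at hvis
    obtain ⟨y, hyB, hyZ⟩ := hvis
    have hyt : y ≠ t := fun h => (Finset.disjoint_left.1 hAB) ht (h ▸ hyB)
    obtain ⟨Z₂, hZ₂, hZ₂V, hSZ₂⟩ := hkey y hyB
    refine ⟨(Z ∩ Z₂) ∪ {y}, Or.inr ⟨y, hyB, Z, hZm, hyZ, Z₂, hZ₂, hZ₂V, rfl⟩, ?_, ?_⟩
    · exact fun s hs => Or.inl ⟨hSZ hs, hSZ₂ hs⟩
    · rintro (h | h)
      · exact htZ h.1
      · exact hyt (by simpa using h.symm)

/-- G4-A4 (adjacency after adding vertices). -/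
theorem add_adj [DecidableEq V] {A B : Finset V} (hAB : Disjoint A B) {𝓩 : Set (Set V)}
    (hZ : ∀ Z ∈ 𝓩, Z ⊆ A) (Vis : V → Set (Set V)) (hVis : ∀ z ∈ B, Vis z ⊆ 𝓩)
    (hVne : ∀ z ∈ B, (Vis z).Nonempty) (hd : ∀ z ∈ B, ∀ y ∈ B, z ≠ y → Disjoint (Vis z) (Vis y))
    (e : V → Finset V) (heA : ∀ z ∈ B, e z ⊆ A) (he : ∀ z ∈ B, ∀ Z ∈ Vis z, (e z : Set V) ⊆ Z)
    (he2 : ∀ z ∈ B, 2 ≤ (e z).card)
    (hx : ∀ z ∈ B, (e z).card = 2 → ∃ Z ∈ 𝓩, Z ∉ Vis z ∧ (e z : Set V) ⊆ Z)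
    (hv : ∀ u ∈ A, FVert A 𝓩 u) (hA : 3 ≤ A.card) :
    (∀ Z ∈ addFam 𝓩 B Vis, Z ⊆ (A ∪ B : Finset V)) ∧
    (∀ u ∈ A ∪ B, FVert (A ∪ B) (addFam 𝓩 B Vis) u) ∧
    (∀ u ∈ A, ∀ w ∈ A, u ≠ w → (FAdj (A ∪ B) (addFam 𝓩 B Vis) u w ↔ FAdj A 𝓩 u w)) ∧
    (∀ z ∈ B, ∀ u ∈ A, FAdj (A ∪ B) (addFam 𝓩 B Vis) z u ↔ ∃ Z ∈ Vis z, u ∈ Z) ∧
    (∀ z ∈ B, ∀ y ∈ B, z ≠ y → ¬ FAdj (A ∪ B) (addFam 𝓩 B Vis) z y) := by
  have hdis : ∀ {x : V}, x ∈ A → x ∈ B → False := fun h1 h2 =>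
    (Finset.disjoint_left.1 hAB) h1 h2
  have hZA : ∀ {Z : Set V}, Z ∈ 𝓩 → ∀ {x : V}, x ∈ Z → x ∈ A := fun h1 _ h2 => by
    simpa using hZ _ h1 h2
  -- the key fact for old vertices
  have hkv : ∀ {u : V}, u ∈ A → ∀ z ∈ B, ∃ Z ∈ 𝓩, Z ∉ Vis z ∧ u ∈ Z := fun hu z hz =>
    key_vert (heA z hz) (he z hz) (he2 z hz) (hv _ hu)
  -- members containing a new vertex
  have hmem : ∀ {z : V}, z ∈ B → ∀ {Z : Set V}, Z ∈ addFam 𝓩 B Vis → z ∈ Z →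
      ∃ Z₁ ∈ 𝓩, Z₁ ∈ Vis z ∧ ∃ Z₂ ∈ 𝓩, Z₂ ∉ Vis z ∧ Z = (Z₁ ∩ Z₂) ∪ {z} := by
    intro z hz Z hZm hzZ
    rcases hZm with h | ⟨y, hy, Z₁, hZ₁, hZ₁V, Z₂, hZ₂, hZ₂V, rfl⟩
    · exact (hdis (hZA h.1 hzZ) hz).elim
    · rcases hzZ with h | h
      · exact (hdis (hZA hZ₁ h.1) hz).elim
      · have : z = y := by simpa using h
        subst this
        exact ⟨Z₁, hZ₁, hZ₁V, Z₂, hZ₂, hZ₂V, rfl⟩
  -- a third vertex
  have hthird : ∀ u w : V, ∃ t ∈ A, t ≠ u ∧ t ≠ w := by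
    intro u w
    have h1 : ¬ A ⊆ {u, w} := fun h => by
      have := Finset.card_le_card h
      have h2 : ({u, w} : Finset V).card ≤ 2 := Finset.card_le_two
      omega
    obtain ⟨t, ht, htn⟩ := Finset.not_subset.1 h1
    exact ⟨t, ht, fun h => htn (by simp [h]), fun h => htn (by simp [h])⟩
  refine ⟨?_, ?_, ?_, ?_, ?_⟩
  · rintro Z (h | ⟨y, hy, Z₁, hZ₁, hZ₁V, Z₂, hZ₂, hZ₂V, rfl⟩) x hx'
    · exact Finset.mem_coe.2 (Finset.mem_union_left _ (hZA h.1 hx'))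
    · rcases hx' with h | h
      · exact Finset.mem_coe.2 (Finset.mem_union_left _ (hZA hZ₁ h.1))
      · have : x = y := by simpa using h
        exact Finset.mem_coe.2 (Finset.mem_union_right _ (this ▸ hy))
  · intro u hu t ht htu
    rcases Finset.mem_union.1 hu with huA | huB
    · -- old vertex
      have hkey : ∀ z ∈ B, ∃ Z ∈ 𝓩, Z ∉ Vis z ∧ ({u} : Set V) ⊆ Z := fun z hz => by
        obtain ⟨Z, h1, h2, h3⟩ := hkv huA z hz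
        exact ⟨Z, h1, h2, Set.singleton_subset_iff.2 h3⟩
      rcases Finset.mem_union.1 ht with htA | htB
      · obtain ⟨Z, h1, h2, h3⟩ := hv u huA t htA htu
        obtain ⟨Z', h4, h5, h6⟩ := avoid_old hAB Vis {u} hkey htA
          ⟨Z, h1, Set.singleton_subset_iff.2 h2, h3⟩
        exact ⟨Z', h4, Set.singleton_subset_iff.1 h5, h6⟩
      · obtain ⟨Z', h4, h5, h6⟩ := avoid_new hAB hZ Vis {u} hkey htB
        exact ⟨Z', h4, Set.singleton_subset_iff.1 h5, h6⟩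
    · -- new vertex
      obtain ⟨Z₁, hZ₁V⟩ := hVne u huB
      have hZ₁ := hVis u huB hZ₁V
      rcases Finset.mem_union.1 ht with htA | htB
      · obtain ⟨s, hs, hst, _⟩ := hthird t t
        obtain ⟨Z, h1, h2, h3⟩ := hv s hs t htA hst.symm
        by_cases hZV : Z ∈ Vis u
        · obtain ⟨Z₂, h4, h5, _⟩ := hkv hs u huB
          refine ⟨(Z ∩ Z₂) ∪ {u}, Or.inr ⟨u, huB, Z, h1, hZV, Z₂, h4, h5, rfl⟩, Or.inr rfl, ?_⟩
          rintro (h | h)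
          · exact h3 h.1
          · exact htu (by simpa using h)
        · refine ⟨(Z₁ ∩ Z) ∪ {u}, Or.inr ⟨u, huB, Z₁, hZ₁, hZ₁V, Z, h1, hZV, rfl⟩,
            Or.inr rfl, ?_⟩
          rintro (h | h)
          · exact h3 h.2
          · exact htu (by simpa using h)
      · obtain ⟨s, hs, _, _⟩ := hthird t t
        obtain ⟨Z₂, h4, h5, _⟩ := hkv hs u huB
        refine ⟨(Z₁ ∩ Z₂) ∪ {u}, Or.inr ⟨u, huB, Z₁, hZ₁, hZ₁V, Z₂, h4, h5, rfl⟩, Or.inr rfl, ?_⟩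
        rintro (h | h)
        · exact hdis (hZA h4 h.2) htB
        · exact htu (by simpa using h)
  · intro u hu w hw huw
    constructor
    · intro h t ht htu htw
      obtain ⟨Z, hZm, huZ, hwZ, htZ⟩ := h t (Finset.mem_union_left _ ht) htu htw
      rcases hZm with h | ⟨y, hy, Z₁, hZ₁, hZ₁V, Z₂, hZ₂, hZ₂V, rfl⟩
      · exact ⟨Z, h.1, huZ, hwZ, htZ⟩
      · have huy : u ≠ y := fun h => hdis hu (h ▸ hy)
        have hwy : w ≠ y := fun h => hdis hw (h ▸ hy)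
        have hu' : u ∈ Z₁ ∩ Z₂ := by
          rcases huZ with h | h
          · exact h
          · exact (huy (by simpa using h)).elim
        have hw' : w ∈ Z₁ ∩ Z₂ := by
          rcases hwZ with h | h
          · exact h
          · exact (hwy (by simpa using h)).elim
        have ht' : t ∉ Z₁ ∩ Z₂ := fun h => htZ (Or.inl h)
        by_cases ht1 : t ∈ Z₁
        · exact ⟨Z₂, hZ₂, hu'.2, hw'.2, fun h => ht' ⟨ht1, h⟩⟩
        · exact ⟨Z₁, hZ₁, hu'.1, hw'.1, ht1⟩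
    · intro hadj t ht htu htw
      have hkey : ∀ z ∈ B, ∃ Z ∈ 𝓩, Z ∉ Vis z ∧ ({u, w} : Set V) ⊆ Z := fun z hz => by
        obtain ⟨Z, h1, h2, h3, h4⟩ := key_edge (heA z hz) (he z hz) (he2 z hz) (hx z hz) huw hadj
        exact ⟨Z, h1, h2, Set.pair_subset h3 h4⟩
      rcases Finset.mem_union.1 ht with htA | htB
      · obtain ⟨Z, h1, h2, h3, h4⟩ := hadj t htA htu htw
        obtain ⟨Z', h5, h6, h7⟩ := avoid_old hAB Vis {u, w} hkey htA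
          ⟨Z, h1, Set.pair_subset h2 h3, h4⟩
        exact ⟨Z', h5, h6 (by simp), h6 (by simp), h7⟩
      · obtain ⟨Z', h4, h5, h6⟩ := avoid_new hAB hZ Vis {u, w} hkey htB
        exact ⟨Z', h4, h5 (by simp), h5 (by simp), h6⟩
  · intro z hz u hu
    have huz : u ≠ z := fun h => hdis hu (h ▸ hz)
    constructor
    · intro h
      obtain ⟨t, ht, htz, htu⟩ := hthird z u
      obtain ⟨Z, hZm, hzZ, huZ, _⟩ := h t (Finset.mem_union_left _ ht) htz htu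
      obtain ⟨Z₁, hZ₁, hZ₁V, Z₂, hZ₂, hZ₂V, rfl⟩ := hmem hz hZm hzZ
      rcases huZ with h | h
      · exact ⟨Z₁, hZ₁V, h.1⟩
      · exact (huz (by simpa using h)).elim
    · rintro ⟨Z, hZV, huZ⟩ t ht htz htu
      have hZm := hVis z hz hZV
      obtain ⟨Z₂, h4, h5, h6⟩ := hkv hu z hz
      rcases Finset.mem_union.1 ht with htA | htB
      · obtain ⟨Z', h7, h8, h9⟩ := hv u hu t htA htu
        by_cases hZ'V : Z' ∈ Vis z
        · refine ⟨(Z' ∩ Z₂) ∪ {z}, Or.inr ⟨z, hz, Z', h7, hZ'V, Z₂, h4, h5, rfl⟩, Or.inr rfl,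
            Or.inl ⟨h8, h6⟩, ?_⟩
          rintro (h | h)
          · exact h9 h.1
          · exact htz (by simpa using h)
        · refine ⟨(Z ∩ Z') ∪ {z}, Or.inr ⟨z, hz, Z, hZm, hZV, Z', h7, hZ'V, rfl⟩, Or.inr rfl,
            Or.inl ⟨huZ, h8⟩, ?_⟩
          rintro (h | h)
          · exact h9 h.2
          · exact htz (by simpa using h)
      · refine ⟨(Z ∩ Z₂) ∪ {z}, Or.inr ⟨z, hz, Z, hZm, hZV, Z₂, h4, h5, rfl⟩, Or.inr rfl,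
          Or.inl ⟨huZ, h6⟩, ?_⟩
        rintro (h | h)
        · exact hdis (hZA h4 h.2) htB
        · exact htz (by simpa using h)
  · intro z hz y hy hzy h
    obtain ⟨t, ht, _, _⟩ := hthird z z
    obtain ⟨Z, hZm, hzZ, hyZ, _⟩ := h t (Finset.mem_union_left _ ht) (fun h => hdis ht (h ▸ hz))
      (fun h => hdis ht (h ▸ hy))
    obtain ⟨Z₁, hZ₁, hZ₁V, Z₂, hZ₂, hZ₂V, rfl⟩ := hmem hz hZm hzZ
    rcases hyZ with h | h
    · exact hdis (hZA hZ₁ h.1) hy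
    · exact hzy (by simpa using h.symm)

end Pool.Agent.Helper16.G4
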