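import Pool.Agent.Helper22.G4.St.C0

/-! # G4-C10: the facets stay connected outside a flat -/

namespace Pool.Agent.Helper16.G4

open Pool.Agent.Helper22.G4

/-- two facets share a vertex outside `R` -/
def Sh (I : NF) (R : List Vx) (f g : Fc) : Prop :=
  f ∈ I.data.fcodes ∧ g ∈ I.data.fcodes ∧
    ∃ v ∈ I.data.verts, v ∉ R ∧ Fc.mem f v = true ∧ Fc.mem g v = true

/-- connected outside `R` -/
def Cn (I : NF) (R : List Vx) : Fc → Fc → Prop := Relation.ReflTransGen (Sh I R)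

lemma Cn.symm {I : NF} {R : List Vx} {f g : Fc} (h : Cn I R f g) : Cn I R g f := by
  have hs : Std.Symm (Sh I R) := ⟨fun f g ⟨h1, h2, v, h3, h4, h5, h6⟩ =>
    ⟨h2, h1, v, h3, h4, h6, h5⟩⟩
  exact (Relation.ReflTransGen.stdSymm (r := Sh I R)).symm _ _ h

lemma Cn.trans {I : NF} {R : List Vx} {f g k : Fc} (h : Cn I R f g) (h' : Cn I R g k) :
    Cn I R f k := Relation.ReflTransGen.trans h h'

lemma Cn.of {I : NF} {R : List Vx} {f g : Fc} {v : Vx} (hf : f ∈ I.data.fcodes)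
    (hg : g ∈ I.data.fcodes) (hv : v ∈ I.data.verts) (hvR : v ∉ R) (h1 : Fc.mem f v = true)
    (h2 : Fc.mem g v = true) : Cn I R f g :=
  Relation.ReflTransGen.single ⟨hf, hg, v, hv, hvR, h1, h2⟩

variable {I : NF}

lemma Q01_mem : Fc.Q I.N 0 1 ∈ I.data.fcodes := NF.mem_fcodes.2 (Or.inl rfl)

lemma F_mem {a s : ℕ} (ha : 1 ≤ a) (ha' : a + 1 ≤ I.M) (hs : s ≤ I.N) :
    Fc.F I.N s a ∈ I.data.fcodes := NF.mem_fcodes.2 (Or.inr (Or.inl ⟨a, s, ha, ha', hs, rfl⟩))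

lemma op_mem {d : OpD} (hd : d ∈ I.opds) {f : Fc} (hf : f ∈ OpD.facets I.M I.N d) :
    f ∈ I.data.fcodes := NF.mem_fcodes.2 (Or.inr (Or.inr ⟨d, hd, hf⟩))

lemma page_full (hI : I.OK) {b : ℕ} (hb : b ≤ I.M) : ∃ G ∈ I.data.fcodes,
    Fc.mem G Vx.b1 = true ∧ Fc.mem G Vx.b2 = true ∧
      ∀ i j, i ≤ I.N → Fc.mem G (Vx.u b i j) = true := by
  obtain ⟨hM, hM4, hN, -⟩ := NF.size hI
  rcases Nat.eq_zero_or_pos b with rfl | hb0
  · refine ⟨Fc.Q I.N 0 1, Q01_mem, rfl, rfl, fun i j hi => ?_⟩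
    rw [Fc.mem_u]
    exact ⟨Or.inl rfl, hi, Nat.zero_le _⟩
  · obtain ⟨d, hd, hdn⟩ := NF.opds_exists (I := I) (n := (b - 1) / 4) (by omega)
    have h4 : b = d.pa ∨ b = d.pb ∨ b = d.pc ∨ b = d.pd := by
      simp only [OpD.pa, OpD.pb, OpD.pc, OpD.pd, hdn]; omega
    rcases h4 with rfl | rfl | rfl | rfl
    · refine ⟨Fc.GY I.N d.pa d.g0, op_mem hd (by simp [OpD.facets]), rfl, rfl, fun i j hi => ?_⟩
      rw [Fc.mem_u]
      exact ⟨Or.inl rfl, hi, Nat.zero_le _⟩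
    · refine ⟨Fc.GX I.N d.pb d.g0, op_mem hd (by simp [OpD.facets]), rfl, rfl, fun i j hi => ?_⟩
      rw [Fc.mem_u]
      exact ⟨Or.inl rfl, hi, Nat.zero_le _⟩
    · refine ⟨Fc.GY I.N d.pc d.g1, op_mem hd (by simp [OpD.facets]), rfl, rfl, fun i j hi => ?_⟩
      rw [Fc.mem_u]
      exact ⟨Or.inl rfl, hi, Nat.zero_le _⟩
    · refine ⟨Fc.GY I.N d.pd d.g2, op_mem hd (by simp [OpD.facets]), rfl, rfl, fun i j hi => ?_⟩
      rw [Fc.mem_u]
      exact ⟨Or.inl rfl, hi, Nat.zero_le _⟩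

lemma page_vertex (hI : I.OK) {b s : ℕ} (hb : b ≤ I.M) (hs : s ≤ I.N) :
    ∃ i j, I.PU b i j ∧ i ≤ s ∧ s ≤ j := by
  obtain ⟨hM, hM4, hN, -⟩ := NF.size hI
  rcases Nat.lt_or_ge s I.N with h | h
  · obtain ⟨i, j, h1, h2, h3⟩ := NF.pu_cover hI hb h
    exact ⟨i, j, h1, h2, by omega⟩
  · obtain ⟨i, j, h1, h2, h3⟩ := NF.pu_cover hI hb (s := I.N - 1) (by omega)
    exact ⟨i, j, h1, by omega, by omega⟩

/-- the facet `F N i b'` contains the vertex `u b i j` -/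
lemma F_at (hI : I.OK) {b i j : ℕ} (hb1 : 1 ≤ b) (h : I.PU b i j) :
    ∃ c, 1 ≤ c ∧ c + 1 ≤ I.M ∧ i ≤ I.N ∧ Fc.mem (Fc.F I.N i c) (Vx.u b i j) = true := by
  obtain ⟨h1, h2, h3⟩ := NF.pu_lt hI h
  obtain ⟨hM, hM4, hN, -⟩ := NF.size hI
  rcases Nat.lt_or_ge b I.M with hb | hb
  · refine ⟨b, hb1, hb, by omega, ?_⟩
    rw [Fc.mem_u]
    exact ⟨Or.inr (Or.inl rfl), le_refl _, by simpa [Fc.F] using h1.le⟩
  · refine ⟨b - 1, by omega, by omega, by omega, ?_⟩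
    rw [Fc.mem_u]
    refine ⟨Or.inr (Or.inr ?_), le_refl _, by simpa [Fc.F] using h1.le⟩
    simp only [Fc.F]
    omega

lemma F_page0 {i j s c : ℕ} (h1 : i ≤ s) (h2 : s ≤ j) :
    Fc.mem (Fc.F I.N s c) (Vx.u 0 i j) = true := by
  rw [Fc.mem_u]
  exact ⟨Or.inl rfl, h1, h2⟩

/-! ## Flats of the first kind: a page -/

lemma not_mem_T1 {R : List Vx} {a' : ℕ}
    (hR : ∀ v ∈ R, v = Vx.b1 ∨ v = Vx.b2 ∨ ∃ i j, v = Vx.u a' i j) {b i j : ℕ} (hb : b ≠ a') :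
    Vx.u b i j ∉ R := by
  intro h
  rcases hR _ h with h | h | ⟨k, l, h⟩
  · simp [Vx.u, Vx.b1] at h
  · simp [Vx.u, Vx.b2] at h
  · simp [Vx.u, hb] at h

lemma hub_T1 (hI : I.OK) {R : List Vx} {a' : ℕ}
    (hR : ∀ v ∈ R, v = Vx.b1 ∨ v = Vx.b2 ∨ ∃ i j, v = Vx.u a' i j) :
    ∃ h0, ∀ f ∈ I.data.fcodes, ∀ b i j, b ≠ a' → I.PU b i j → Fc.mem f (Vx.u b i j) = true →
      Cn I R f h0 := by
  obtain ⟨hM, hM4, hN, -⟩ := NF.size hI
  rcases Nat.eq_zero_or_pos a' with rfl | ha'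
  · obtain ⟨G, hG, -, -, hG1⟩ := page_full hI (b := 1) (by omega)
    refine ⟨G, ?_⟩
    have key : ∀ b, 1 ≤ b → ∀ f ∈ I.data.fcodes, ∀ i j, I.PU b i j →
        Fc.mem f (Vx.u b i j) = true → Cn I R f G := by
      intro b hb
      induction b, hb using Nat.le_induction with
      | base =>
        intro f hf i j hp hm
        obtain ⟨h1, h2, h3⟩ := NF.pu_lt hI hp
        exact Cn.of hf hG hp (not_mem_T1 hR (by omega)) hm (hG1 i j (by omega))
      | succ b hb ih =>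
        intro f hf i j hp hm
        obtain ⟨h1, h2, h3⟩ := NF.pu_lt hI hp
        have hF : Fc.F I.N i b ∈ I.data.fcodes := F_mem hb h3 (by omega)
        have hFm : Fc.mem (Fc.F I.N i b) (Vx.u (b + 1) i j) = true := by
          rw [Fc.mem_u]
          exact ⟨Or.inr (Or.inr rfl), le_refl _, by simpa [Fc.F] using h1.le⟩
        refine (Cn.of hf hF hp (not_mem_T1 hR (by omega)) hm hFm).trans ?_
        obtain ⟨k, l, hkl, h4, h5⟩ := page_vertex hI (b := b) (s := i) (by omega) (by omega)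
        refine ih _ hF k l hkl ?_
        rw [Fc.mem_u]
        exact ⟨Or.inr (Or.inl rfl), h4, h5⟩
    intro f hf b i j hb hp hm
    exact key b (by omega) f hf i j hp hm
  · refine ⟨Fc.Q I.N 0 1, ?_⟩
    intro f hf b i j hb hp hm
    obtain ⟨h1, h2, h3⟩ := NF.pu_lt hI hp
    rcases Nat.eq_zero_or_pos b with rfl | hb0
    · refine Cn.of hf Q01_mem hp (not_mem_T1 hR hb) hm ?_
      rw [Fc.mem_u]
      exact ⟨Or.inl rfl, by simp only [Fc.Q]; omega, Nat.zero_le _⟩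
    · obtain ⟨c, hc1, hc2, hc3, hc4⟩ := F_at hI hb0 hp
      refine (Cn.of hf (F_mem hc1 hc2 hc3) hp (not_mem_T1 hR hb) hm hc4).trans ?_
      obtain ⟨k, l, hkl, h4, h5⟩ := page_vertex hI (b := 0) (s := i) (by omega) (by omega)
      obtain ⟨h6, h7, h8⟩ := NF.pu_lt hI hkl
      refine Cn.of (F_mem hc1 hc2 hc3) Q01_mem hkl (not_mem_T1 hR (by omega)) (F_page0 h4 h5) ?_
      rw [Fc.mem_u]
      exact ⟨Or.inl rfl, by simp only [Fc.Q]; omega, Nat.zero_le _⟩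

/-- `f` contains, at some slope, the vertices of two pages -/
def Two (I : NF) (m : ℕ) (f : Fc) : Prop :=
  ∃ b c s, m ≤ b ∧ m ≤ c ∧ b ≤ I.M ∧ c ≤ I.M ∧ b ≠ c ∧ s ≤ I.N ∧
    ∀ i j, i ≤ s → s ≤ j → Fc.mem f (Vx.u b i j) = true ∧ Fc.mem f (Vx.u c i j) = true

lemma two_F {a s m : ℕ} (hm : m ≤ 1) (ha : 1 ≤ a) (ha' : a + 1 ≤ I.M) (hs : s ≤ I.N) :
    Two I m (Fc.F I.N s a) := by
  refine ⟨a, a + 1, s, by omega, by omega, by omega, by omega, by omega, hs, fun i j hi hj => ?_⟩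
  rw [Fc.mem_u, Fc.mem_u]
  exact ⟨⟨Or.inr (Or.inl rfl), hi, hj⟩, Or.inr (Or.inr rfl), hi, hj⟩

lemma two_Q {a b : ℕ} (ha : a ≤ I.M) (hb : b ≤ I.M) (hab : a ≠ b) : Two I 0 (Fc.Q I.N a b) := by
  refine ⟨a, b, 0, by omega, by omega, by omega, by omega, hab, by omega, fun i j hi hj => ?_⟩
  rw [Fc.mem_u, Fc.mem_u]
  refine ⟨⟨Or.inl rfl, ?_, hj⟩, Or.inr (Or.inl rfl), ?_, hj⟩ <;> simp only [Fc.Q] <;> omega

lemma two_G {a b g s m : ℕ} {t : Bool} (hma : m ≤ a) (hmb : m ≤ b) (ha : a ≤ I.M) (hb : b ≤ I.M)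
    (hab : a ≠ b) (hs : s ≤ I.N) : Two I m (Fc.G I.N a b g (s, t)) := by
  refine ⟨a, b, s, hma, hmb, by omega, by omega, hab, by omega, fun i j hi hj => ?_⟩
  rw [Fc.mem_u, Fc.mem_u]
  exact ⟨⟨Or.inl rfl, hi, hj⟩, Or.inr (Or.inl rfl), hi, hj⟩

lemma nxt_le {M : ℕ} {d : OpD} (h : 4 * d.n + 4 ≤ M) (h4 : ∃ k, M = 4 * k) :
    d.nxt M ≤ M ∧ d.nxt M ≠ d.pd := by
  obtain ⟨k, hk⟩ := h4
  unfold OpD.nxt OpD.pd
  split_ifs <;> constructor <;> omega

lemma class_T1 (hI : I.OK) {f : Fc} (hf : f ∈ I.data.fcodes) : Two I 0 f ∨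
    ∃ g ∈ I.data.fcodes, Two I 0 g ∧ ∃ v ∈ I.data.verts, (∃ k, v = Vx.p k ∨ v = Vx.q k) ∧
      Fc.mem f v = true ∧ Fc.mem g v = true := by
  obtain ⟨hM, hM4, hN, -⟩ := NF.size hI
  rcases NF.mem_fcodes.1 hf with rfl | ⟨a, s, h1, h2, h3, rfl⟩ | ⟨d, hd, hfd⟩
  · exact Or.inl (two_Q (by omega) (by omega) (by omega))
  · exact Or.inl (two_F (by omega) h1 h2 h3)
  · obtain ⟨k1, k2, k3, k4, k5, k6, k7, k8, -⟩ := NF.opd_ok hI hd
    have hn := nxt_le (M := I.M) k1 ⟨_, hM4⟩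
    have hp0 : Vx.p d.g0 ∈ I.data.verts := NF.p_mem.2 (by simp only [OpD.g0]; omega)
    have hp1 : Vx.p d.g1 ∈ I.data.verts := NF.p_mem.2 (by simp only [OpD.g1]; omega)
    have hp2 : Vx.p d.g2 ∈ I.data.verts := NF.p_mem.2 (by simp only [OpD.g2]; omega)
    have hq0 : Vx.q d.g0 ∈ I.data.verts := NF.q_mem.2 (by simp only [OpD.g0]; omega)
    have hq1 : Vx.q d.g1 ∈ I.data.verts := NF.q_mem.2 (by simp only [OpD.g1]; omega)
    have hq2 : Vx.q d.g2 ∈ I.data.verts := NF.q_mem.2 (by simp only [OpD.g2]; omega)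
    have t0 : ∀ s t, s ≤ I.N → Two I 0 (Fc.G I.N d.pb d.pa d.g0 (s, t)) := fun s t hs =>
      two_G (by omega) (by omega) (by simp only [OpD.pb]; omega) (by simp only [OpD.pa]; omega)
        (by simp only [OpD.pa, OpD.pb]; omega) hs
    have t1 : ∀ s t, s ≤ I.N → Two I 0 (Fc.G I.N d.pb d.pc d.g1 (s, t)) := fun s t hs =>
      two_G (by omega) (by omega) (by simp only [OpD.pb]; omega) (by simp only [OpD.pc]; omega)
        (by simp only [OpD.pc, OpD.pb]; omega) hs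
    have t2 : ∀ s t, s ≤ I.N → Two I 0 (Fc.G I.N d.pc d.pd d.g2 (s, t)) := fun s t hs =>
      two_G (by omega) (by omega) (by simp only [OpD.pc]; omega) (by simp only [OpD.pd]; omega)
        (by simp only [OpD.pc, OpD.pd]; omega) hs
    have m0 : Fc.G I.N d.pb d.pa d.g0 (0, true) ∈ I.data.fcodes :=
      op_mem hd (by simp [OpD.facets])
    have m1 : Fc.G I.N d.pb d.pc d.g1 (0, true) ∈ I.data.fcodes :=
      op_mem hd (by simp [OpD.facets])
    have m2 : Fc.G I.N d.pc d.pd d.g2 (0, true) ∈ I.data.fcodes :=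
      op_mem hd (by simp [OpD.facets])
    simp only [OpD.facets, List.mem_cons, List.not_mem_nil, or_false] at hfd
    rcases hfd with rfl | rfl | rfl | rfl | rfl | rfl | rfl | rfl | rfl | rfl | rfl | rfl | rfl |
      rfl | rfl | rfl | rfl | rfl | rfl | rfl | rfl | rfl | rfl | rfl | rfl | rfl | rfl
    · exact Or.inl (two_Q (by simp only [OpD.pd]; omega) hn.1 hn.2.symm)
    · exact Or.inr ⟨_, m0, t0 _ _ (by omega), _, hp0, ⟨_, Or.inl rfl⟩,
        (Fc.mem_p _ _).2 rfl, (Fc.mem_p _ _).2 rfl⟩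
    · exact Or.inr ⟨_, m0, t0 _ _ (by omega), _, hq0, ⟨_, Or.inr rfl⟩,
        (Fc.mem_q _ _).2 rfl, (Fc.mem_q _ _).2 rfl⟩
    · exact Or.inr ⟨_, m0, t0 _ _ (by omega), _, hp0, ⟨_, Or.inl rfl⟩,
        (Fc.mem_p _ _).2 rfl, (Fc.mem_p _ _).2 rfl⟩
    · exact Or.inr ⟨_, m1, t1 _ _ (by omega), _, hp1, ⟨_, Or.inl rfl⟩,
        (Fc.mem_p _ _).2 rfl, (Fc.mem_p _ _).2 rfl⟩
    · exact Or.inr ⟨_, m1, t1 _ _ (by omega), _, hq1, ⟨_, Or.inr rfl⟩,
        (Fc.mem_q _ _).2 rfl, (Fc.mem_q _ _).2 rfl⟩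
    · exact Or.inr ⟨_, m1, t1 _ _ (by omega), _, hp1, ⟨_, Or.inl rfl⟩,
        (Fc.mem_p _ _).2 rfl, (Fc.mem_p _ _).2 rfl⟩
    · exact Or.inr ⟨_, m2, t2 _ _ (by omega), _, hp2, ⟨_, Or.inl rfl⟩,
        (Fc.mem_p _ _).2 rfl, (Fc.mem_p _ _).2 rfl⟩
    · exact Or.inr ⟨_, m2, t2 _ _ (by omega), _, hq2, ⟨_, Or.inr rfl⟩,
        (Fc.mem_q _ _).2 rfl, (Fc.mem_q _ _).2 rfl⟩
    · exact Or.inr ⟨_, m2, t2 _ _ (by omega), _, hp2, ⟨_, Or.inl rfl⟩,
        (Fc.mem_p _ _).2 rfl, (Fc.mem_p _ _).2 rfl⟩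
    all_goals first
      | exact Or.inl (t0 _ _ (by omega))
      | exact Or.inl (t1 _ _ (by omega))
      | exact Or.inl (t2 _ _ (by omega))

lemma conn_T1 (hI : I.OK) {R : List Vx} {a' : ℕ}
    (hR : ∀ v ∈ R, v = Vx.b1 ∨ v = Vx.b2 ∨ ∃ i j, v = Vx.u a' i j) :
    ∃ h0, ∀ f ∈ I.data.fcodes, Cn I R f h0 := by
  obtain ⟨h0, hh⟩ := hub_T1 hI hR
  refine ⟨h0, ?_⟩
  have key : ∀ f ∈ I.data.fcodes, Two I 0 f → Cn I R f h0 := by
    rintro f hf ⟨b, c, s, -, -, hb, hc, hbc, hs, hm⟩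
    by_cases h : b = a'
    · obtain ⟨i, j, h1, h2, h3⟩ := page_vertex hI hc hs
      exact hh f hf c i j (fun h' => hbc (h.trans h'.symm)) h1 (hm i j h2 h3).2
    · obtain ⟨i, j, h1, h2, h3⟩ := page_vertex hI hb hs
      exact hh f hf b i j h h1 (hm i j h2 h3).1
  intro f hf
  rcases class_T1 hI hf with h | ⟨g, hg, hg2, v, hv, ⟨k, hk⟩, h1, h2⟩
  · exact key f hf h
  · refine (Cn.of hf hg hv ?_ h1 h2).trans (key g hg hg2)
    intro hvR
    rcases hR _ hvR with h | h | ⟨i, j, h⟩ <;> rcases hk with h' | h' <;>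
      simp [h', Vx.p, Vx.q, Vx.b1, Vx.b2, Vx.u] at h

/-! ## Flats of the second kind: quadrangles with page `0` -/

lemma class_T2 (hI : I.OK) {f : Fc} (hf : f ∈ I.data.fcodes) :
    Fc.mem f Vx.b1 = true ∨ Two I 1 f := by
  obtain ⟨hM, hM4, hN, -⟩ := NF.size hI
  rcases NF.mem_fcodes.1 hf with rfl | ⟨a, s, h1, h2, h3, rfl⟩ | ⟨d, hd, hfd⟩
  · exact Or.inl rfl
  · exact Or.inr (two_F (by omega) h1 h2 h3)
  · obtain ⟨k1, k2, k3, k4, k5, k6, k7, k8, -⟩ := NF.opd_ok hI hd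
    have t0 : ∀ s t, s ≤ I.N → Two I 1 (Fc.G I.N d.pb d.pa d.g0 (s, t)) := fun s t hs =>
      two_G (by simp only [OpD.pb]; omega) (by simp only [OpD.pa]; omega)
        (by simp only [OpD.pb]; omega) (by simp only [OpD.pa]; omega)
        (by simp only [OpD.pa, OpD.pb]; omega) hs
    have t1 : ∀ s t, s ≤ I.N → Two I 1 (Fc.G I.N d.pb d.pc d.g1 (s, t)) := fun s t hs =>
      two_G (by simp only [OpD.pb]; omega) (by simp only [OpD.pc]; omega)
        (by simp only [OpD.pb]; omega) (by simp only [OpD.pc]; omega)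
        (by simp only [OpD.pc, OpD.pb]; omega) hs
    have t2 : ∀ s t, s ≤ I.N → Two I 1 (Fc.G I.N d.pc d.pd d.g2 (s, t)) := fun s t hs =>
      two_G (by simp only [OpD.pc]; omega) (by simp only [OpD.pd]; omega)
        (by simp only [OpD.pc]; omega) (by simp only [OpD.pd]; omega)
        (by simp only [OpD.pc, OpD.pd]; omega) hs
    simp only [OpD.facets, List.mem_cons, List.not_mem_nil, or_false] at hfd
    rcases hfd with rfl | rfl | rfl | rfl | rfl | rfl | rfl | rfl | rfl | rfl | rfl | rfl | rfl |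
      rfl | rfl | rfl | rfl | rfl | rfl | rfl | rfl | rfl | rfl | rfl | rfl | rfl | rfl
    all_goals first
      | exact Or.inl rfl
      | exact Or.inr (t0 _ _ (by omega))
      | exact Or.inr (t1 _ _ (by omega))
      | exact Or.inr (t2 _ _ (by omega))

lemma conn_T2 (hI : I.OK) {R : List Vx} {a' : ℕ}
    (hR : ∀ v ∈ R, ∃ b i j, v = Vx.u b i j ∧ (b = 0 ∨ b = a')) :
    ∃ h0, ∀ f ∈ I.data.fcodes, Cn I R f h0 := by
  refine ⟨Fc.Q I.N 0 1, ?_⟩
  have hb1 : Vx.b1 ∉ R := by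
    intro h
    obtain ⟨b, i, j, h1, -⟩ := hR _ h
    simp [Vx.b1, Vx.u] at h1
  have key : ∀ f ∈ I.data.fcodes, Fc.mem f Vx.b1 = true → Cn I R f (Fc.Q I.N 0 1) :=
    fun f hf hm => Cn.of hf Q01_mem NF.b_mem.1 hb1 hm rfl
  intro f hf
  rcases class_T2 hI hf with h | ⟨b, c, s, hb0, hc0, hb, hc, hbc, hs, hm⟩
  · exact key f hf h
  · have key2 : ∀ b, 1 ≤ b → b ≤ I.M → b ≠ a' → (∀ i j, i ≤ s → s ≤ j →
        Fc.mem f (Vx.u b i j) = true) → Cn I R f (Fc.Q I.N 0 1) := by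
      intro b hb0 hb hba hmb
      obtain ⟨i, j, h1, h2, h3⟩ := page_vertex hI hb hs
      obtain ⟨G, hG, hG1, -, hG2⟩ := page_full hI hb
      refine (Cn.of hf hG h1 ?_ (hmb i j h2 h3) (hG2 i j (by omega))).trans (key G hG hG1)
      intro h
      obtain ⟨b', i', j', h4, h5⟩ := hR _ h
      simp only [Vx.u, Prod.mk.injEq, true_and] at h4
      omega
    by_cases h : b = a'
    · exact key2 c hc0 hc (fun h' => hbc (h.trans h'.symm)) fun i j h1 h2 => (hm i j h1 h2).2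
    · exact key2 b hb0 hb h fun i j h1 h2 => (hm i j h1 h2).1

/-! ## Flats of the third kind: quadrangles of a gadget -/

lemma class_T3 (hI : I.OK) {f : Fc} (hf : f ∈ I.data.fcodes) :
    Fc.mem f Vx.b1 = true ∨ Fc.mem f Vx.b2 = true ∨
    (∃ s ≤ I.N, ∀ i j, i ≤ s → s ≤ j → Fc.mem f (Vx.u 0 i j) = true) ∨
    (∃ b i s j, I.PU b i s ∧ I.PU b s j ∧ Fc.mem f (Vx.u b i s) = true ∧
      Fc.mem f (Vx.u b s j) = true) := by
  obtain ⟨hM, hM4, hN, -⟩ := NF.size hI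
  rcases NF.mem_fcodes.1 hf with rfl | ⟨a, s, h1, h2, h3, rfl⟩ | ⟨d, hd, hfd⟩
  · exact Or.inl rfl
  · exact Or.inr (Or.inr (Or.inl ⟨s, h3, fun i j hi hj => F_page0 hi hj⟩))
  · obtain ⟨k1, k2, k3, k4, k5, k6, k7, k8, -⟩ := NF.opd_ok hI hd
    have gen : ∀ b c g s t i j, i ≤ s → s ≤ j → Fc.mem (Fc.G I.N b c g (s, t)) (Vx.u b i s) = true ∧
        Fc.mem (Fc.G I.N b c g (s, t)) (Vx.u b s j) = true ∧
        Fc.mem (Fc.G I.N b c g (s, t)) (Vx.u c i s) = true ∧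
        Fc.mem (Fc.G I.N b c g (s, t)) (Vx.u c s j) = true := by
      intro b c g s t i j hi hj
      simp only [Fc.mem_u]
      exact ⟨⟨Or.inl rfl, hi, le_refl _⟩, ⟨Or.inl rfl, le_refl _, hj⟩,
        ⟨Or.inr (Or.inl rfl), hi, le_refl _⟩, ⟨Or.inr (Or.inl rfl), le_refl _, hj⟩⟩
    have pu : ∀ b i j, (b = d.pa ∧ ((i = 0 ∧ j = d.z) ∨ (i = d.z ∧ j = d.x) ∨ (i = d.x ∧ j = I.N))) ∨
      (b = d.pb ∧ ((i = 0 ∧ j = d.y) ∨ (i = d.y ∧ j = d.i) ∨ (i = d.i ∧ j = d.x) ∨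
        (i = d.x ∧ j = I.N))) ∨
      (b = d.pc ∧ ((i = 0 ∧ j = d.y) ∨ (i = d.y ∧ j = d.v) ∨ (i = d.v ∧ j = I.N))) ∨
      (b = d.pd ∧ ((i = 0 ∧ j = d.w) ∨ (i = d.w ∧ j = I.N))) → I.PU b i j := fun b i j h =>
      NF.pu_iff.2 (Or.inr ⟨d, hd, h⟩)
    have bz : ∀ s j k, I.PU d.pb j s → I.PU d.pb s k → ∀ c g t,
        f = Fc.G I.N d.pb c g (s, t) → ∃ b i s j, I.PU b i s ∧ I.PU b s j ∧
          Fc.mem f (Vx.u b i s) = true ∧ Fc.mem f (Vx.u b s j) = true := by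
      rintro s j k h1 h2 c g t rfl
      have h3 := NF.pu_lt hI h1
      have h4 := NF.pu_lt hI h2
      obtain ⟨g1, g2, -, -⟩ := gen d.pb c g s t j k h3.1.le h4.1.le
      exact ⟨_, _, _, _, h1, h2, g1, g2⟩
    have cz : ∀ s j k, I.PU d.pc j s → I.PU d.pc s k → ∀ c g t,
        f = Fc.G I.N d.pc c g (s, t) → ∃ b i s j, I.PU b i s ∧ I.PU b s j ∧
          Fc.mem f (Vx.u b i s) = true ∧ Fc.mem f (Vx.u b s j) = true := by
      rintro s j k h1 h2 c g t rfl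
      have h3 := NF.pu_lt hI h1
      have h4 := NF.pu_lt hI h2
      obtain ⟨g1, g2, -, -⟩ := gen d.pc c g s t j k h3.1.le h4.1.le
      exact ⟨_, _, _, _, h1, h2, g1, g2⟩
    have ez : ∀ s j k e, I.PU e j s → I.PU e s k → ∀ c g t,
        f = Fc.G I.N c e g (s, t) → ∃ b i s j, I.PU b i s ∧ I.PU b s j ∧
          Fc.mem f (Vx.u b i s) = true ∧ Fc.mem f (Vx.u b s j) = true := by
      rintro s j k e h1 h2 c g t rfl
      have h3 := NF.pu_lt hI h1
      have h4 := NF.pu_lt hI h2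
      obtain ⟨-, -, g1, g2⟩ := gen c e g s t j k h3.1.le h4.1.le
      exact ⟨_, _, _, _, h1, h2, g1, g2⟩
    simp only [OpD.facets, List.mem_cons, List.not_mem_nil, or_false] at hfd
    rcases hfd with h | h | h | h | h | h | h | h | h | h | h | h | h |
      h | h | h | h | h | h | h | h | h | h | h | h | h | h
    · subst h; exact Or.inl rfl
    · subst h; exact Or.inl rfl
    · subst h; exact Or.inl rfl
    · subst h; exact Or.inl rfl
    · subst h; exact Or.inl rfl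
    · subst h; exact Or.inl rfl
    · subst h; exact Or.inl rfl
    · subst h; exact Or.inl rfl
    · subst h; exact Or.inl rfl
    · subst h; exact Or.inl rfl
    · subst h; exact Or.inr (Or.inl rfl)
    · exact Or.inr (Or.inr (Or.inr (bz d.y 0 d.i (pu _ _ _ (by simp)) (pu _ _ _ (by simp)) _ _ _ h)))
    · exact Or.inr (Or.inr (Or.inr (ez d.z 0 d.x d.pa (pu _ _ _ (by simp)) (pu _ _ _ (by simp))
        _ _ _ h)))
    · exact Or.inr (Or.inr (Or.inr (bz d.i d.y d.x (pu _ _ _ (by simp)) (pu _ _ _ (by simp))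
        _ _ _ h)))
    · exact Or.inr (Or.inr (Or.inr (bz d.x d.i I.N (pu _ _ _ (by simp)) (pu _ _ _ (by simp))
        _ _ _ h)))
    · subst h; exact Or.inl (by rw [Fc.mem_b1]; simp [Fc.G])
    · subst h; exact Or.inr (Or.inl rfl)
    · exact Or.inr (Or.inr (Or.inr (bz d.y 0 d.i (pu _ _ _ (by simp)) (pu _ _ _ (by simp)) _ _ _ h)))
    · exact Or.inr (Or.inr (Or.inr (bz d.i d.y d.x (pu _ _ _ (by simp)) (pu _ _ _ (by simp))
        _ _ _ h)))
    · exact Or.inr (Or.inr (Or.inr (ez d.v d.y I.N d.pc (pu _ _ _ (by simp)) (pu _ _ _ (by simp))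
        _ _ _ h)))
    · exact Or.inr (Or.inr (Or.inr (bz d.x d.i I.N (pu _ _ _ (by simp)) (pu _ _ _ (by simp))
        _ _ _ h)))
    · subst h; exact Or.inl (by rw [Fc.mem_b1]; simp [Fc.G])
    · subst h; exact Or.inr (Or.inl rfl)
    · exact Or.inr (Or.inr (Or.inr (cz d.y 0 d.v (pu _ _ _ (by simp)) (pu _ _ _ (by simp)) _ _ _ h)))
    · exact Or.inr (Or.inr (Or.inr (ez d.w 0 I.N d.pd (pu _ _ _ (by simp)) (pu _ _ _ (by simp))
        _ _ _ h)))
    · exact Or.inr (Or.inr (Or.inr (cz d.v d.y I.N (pu _ _ _ (by simp)) (pu _ _ _ (by simp))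
        _ _ _ h)))
    · subst h; exact Or.inl (by rw [Fc.mem_b1]; simp [Fc.G])

lemma conn_T3 (hI : I.OK) {R : List Vx} (hR1 : Vx.b1 ∉ R) (hR2 : Vx.b2 ∉ R)
    (hR0 : ∀ i j, Vx.u 0 i j ∉ R)
    (hR : ∀ b i j k l, Vx.u b i j ∈ R → Vx.u b k l ∈ R → i = k ∧ j = l) :
    ∃ h0, ∀ f ∈ I.data.fcodes, Cn I R f h0 := by
  obtain ⟨hM, hM4, hN, -⟩ := NF.size hI
  refine ⟨Fc.Q I.N 0 1, ?_⟩
  have key : ∀ f ∈ I.data.fcodes, Fc.mem f Vx.b1 = true → Cn I R f (Fc.Q I.N 0 1) :=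
    fun f hf hm => Cn.of hf Q01_mem NF.b_mem.1 hR1 hm rfl
  have key' : ∀ f ∈ I.data.fcodes, ∀ b i j, I.PU b i j → Vx.u b i j ∉ R →
      Fc.mem f (Vx.u b i j) = true → Cn I R f (Fc.Q I.N 0 1) := by
    intro f hf b i j hp hR' hm
    have h := NF.pu_lt hI hp
    obtain ⟨G, hG, hG1, -, hG2⟩ := page_full hI h.2.2
    exact (Cn.of hf hG hp hR' hm (hG2 i j (by omega))).trans (key G hG hG1)
  intro f hf
  rcases class_T3 hI hf with h | h | ⟨s, hs, hm⟩ | ⟨b, i, s, j, h1, h2, h3, h4⟩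
  · exact key f hf h
  · exact Cn.of hf Q01_mem NF.b_mem.2 hR2 h rfl
  · obtain ⟨i, j, h1, h2, h3⟩ := page_vertex hI (b := 0) (Nat.zero_le _) hs
    exact key' f hf 0 i j h1 (hR0 i j) (hm i j h2 h3)
  · by_cases h : Vx.u b i s ∈ R
    · refine key' f hf b s j h2 (fun h' => ?_) h4
      have h5 := hR _ _ _ _ _ h h'
      have h6 := NF.pu_lt hI h1
      omega
    · exact key' f hf b i s h1 h h3

/-- all flats are of one of the three kinds -/
lemma conn_hub (hI : I.OK) {R : Flat Vx Fc} (hR : R ∈ I.data.flats) :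
    ∃ h0, ∀ f ∈ I.data.fcodes, Cn I R.1 f h0 := by
  rcases NF.mem_flats.1 hR with rfl | ⟨d, hd, hRd⟩
  · refine conn_T1 hI (a' := 0) ?_
    intro v hv
    simp only [NF.page0, List.mem_append, List.mem_map, List.mem_range, List.mem_cons,
      List.not_mem_nil, or_false] at hv
    rcases hv with ⟨i, -, rfl⟩ | rfl | rfl | rfl
    · exact Or.inr (Or.inr ⟨_, _, rfl⟩)
    · exact Or.inl rfl
    · exact Or.inr (Or.inl rfl)
    · exact Or.inr (Or.inr ⟨_, _, rfl⟩)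
  · have hT3 : ∀ X Y g i j k l, 1 ≤ X → 1 ≤ Y → X ≠ Y → ∀ L : List Vx,
        (∀ v ∈ L, v = Vx.p g ∨ v = Vx.q g ∨ v = Vx.u X i j ∨ v = Vx.u Y k l) →
        ∃ h0, ∀ f ∈ I.data.fcodes, Cn I L f h0 := by
      intro X Y g i j k l hX hY hXY L hL
      refine conn_T3 hI ?_ ?_ ?_ ?_
      · intro h
        rcases hL _ h with h | h | h | h <;> simp [Vx.p, Vx.q, Vx.b1, Vx.u] at h
      · intro h
        rcases hL _ h with h | h | h | h <;> simp [Vx.p, Vx.q, Vx.b2, Vx.u] at h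
      · intro i' j' h
        rcases hL _ h with h | h | h | h <;>
          simp only [Vx.p, Vx.q, Vx.u, Prod.mk.injEq] at h <;> omega
      · intro b i' j' k' l' h h'
        have h1 : (b = X ∧ i' = i ∧ j' = j) ∨ (b = Y ∧ i' = k ∧ j' = l) := by
          rcases hL _ h with h | h | h | h <;>
            simp only [Vx.p, Vx.q, Vx.u, Prod.mk.injEq, true_and] at h <;> omega
        have h2 : (b = X ∧ k' = i ∧ l' = j) ∨ (b = Y ∧ k' = k ∧ l' = l) := by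
          rcases hL _ h' with h | h | h | h <;>
            simp only [Vx.p, Vx.q, Vx.u, Prod.mk.injEq, true_and] at h <;> omega
        omega
    have hT2 : ∀ a i s j, ∃ h0, ∀ f ∈ I.data.fcodes, Cn I (OpD.squad I.M I.N a i s j).1 f h0 := by
      intro a i s j
      refine conn_T2 hI (a' := a) ?_
      intro v hv
      simp only [OpD.squad, List.mem_cons, List.not_mem_nil, or_false] at hv
      rcases hv with rfl | rfl | rfl | rfl
      · exact ⟨_, _, _, rfl, Or.inl rfl⟩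
      · exact ⟨_, _, _, rfl, Or.inr rfl⟩
      · exact ⟨_, _, _, rfl, Or.inr rfl⟩
      · exact ⟨_, _, _, rfl, Or.inl rfl⟩
    simp only [OpD.flats, List.mem_cons, List.not_mem_nil, or_false] at hRd
    rcases hRd with rfl | rfl | rfl | rfl | rfl | rfl | rfl | rfl | rfl | rfl | rfl | rfl | rfl |
      rfl | rfl | rfl | rfl
    · refine conn_T1 hI (a' := d.pa) ?_
      intro v hv
      simp only [List.mem_cons, List.not_mem_nil, or_false] at hv
      rcases hv with rfl | rfl | rfl | rfl | rfl <;>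
        first
          | exact Or.inl rfl
          | exact Or.inr (Or.inl rfl)
          | exact Or.inr (Or.inr ⟨_, _, rfl⟩)
    · refine conn_T1 hI (a' := d.pb) ?_
      intro v hv
      simp only [List.mem_cons, List.not_mem_nil, or_false] at hv
      rcases hv with rfl | rfl | rfl | rfl | rfl | rfl <;>
        first
          | exact Or.inl rfl
          | exact Or.inr (Or.inl rfl)
          | exact Or.inr (Or.inr ⟨_, _, rfl⟩)
    · refine conn_T1 hI (a' := d.pc) ?_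
      intro v hv
      simp only [List.mem_cons, List.not_mem_nil, or_false] at hv
      rcases hv with rfl | rfl | rfl | rfl | rfl <;>
        first
          | exact Or.inl rfl
          | exact Or.inr (Or.inl rfl)
          | exact Or.inr (Or.inr ⟨_, _, rfl⟩)
    · refine conn_T1 hI (a' := d.pd) ?_
      intro v hv
      simp only [List.mem_cons, List.not_mem_nil, or_false] at hv
      rcases hv with rfl | rfl | rfl | rfl <;>
        first
          | exact Or.inl rfl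
          | exact Or.inr (Or.inl rfl)
          | exact Or.inr (Or.inr ⟨_, _, rfl⟩)
    · exact hT2 _ _ _ _
    · exact hT2 _ _ _ _
    · exact hT2 _ _ _ _
    · exact hT2 _ _ _ _
    · exact hT2 _ _ _ _
    · exact hT2 _ _ _ _
    · refine hT3 d.pa d.pb d.g0 0 d.z 0 d.y (by simp only [OpD.pa]; omega)
        (by simp only [OpD.pb]; omega) (by simp only [OpD.pa, OpD.pb]; omega) _ ?_
      intro v hv
      simpa [or_comm, or_assoc, or_left_comm] using hv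
    · refine hT3 d.pb d.pa d.g0 d.i d.x d.z d.x (by simp only [OpD.pb]; omega)
        (by simp only [OpD.pa]; omega) (by simp only [OpD.pa, OpD.pb]; omega) _ ?_
      intro v hv
      simpa [or_comm, or_assoc, or_left_comm] using hv
    · refine hT3 d.pc d.pb d.g1 0 d.y 0 d.y (by simp only [OpD.pc]; omega)
        (by simp only [OpD.pb]; omega) (by simp only [OpD.pc, OpD.pb]; omega) _ ?_
      intro v hv
      simpa [or_comm, or_assoc, or_left_comm] using hv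
    · refine hT3 d.pb d.pc d.g1 d.y d.i d.y d.v (by simp only [OpD.pb]; omega)
        (by simp only [OpD.pc]; omega) (by simp only [OpD.pc, OpD.pb]; omega) _ ?_
      intro v hv
      simpa [or_comm, or_assoc, or_left_comm] using hv
    · refine hT3 d.pb d.pc d.g1 d.x I.N d.v I.N (by simp only [OpD.pb]; omega)
        (by simp only [OpD.pc]; omega) (by simp only [OpD.pc, OpD.pb]; omega) _ ?_
      intro v hv
      simpa [or_comm, or_assoc, or_left_comm] using hv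
    · refine hT3 d.pc d.pd d.g2 0 d.y 0 d.w (by simp only [OpD.pc]; omega)
        (by simp only [OpD.pd]; omega) (by simp only [OpD.pc, OpD.pd]; omega) _ ?_
      intro v hv
      simpa [or_comm, or_assoc, or_left_comm] using hv
    · refine hT3 d.pd d.pc d.g2 d.w I.N d.v I.N (by simp only [OpD.pd]; omega)
        (by simp only [OpD.pc]; omega) (by simp only [OpD.pc, OpD.pd]; omega) _ ?_
      intro v hv
      simpa [or_comm, or_assoc, or_left_comm] using hv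

/-- G4-C10 (connectivity outside a flat). -/
theorem NF.flat_conn {I : NF} (hI : I.OK) : ∀ R ∈ I.data.flats, ∀ f ∈ I.data.fcodes,
    ∀ g ∈ I.data.fcodes, Relation.ReflTransGen (fun f g => g ∈ I.data.fcodes ∧
      ∃ v ∈ I.data.verts, v ∉ R.1 ∧ I.data.mem f v ∧ I.data.mem g v) f g := by
  intro R hR f hf g hg
  obtain ⟨h0, hh⟩ := conn_hub hI hR
  have h : Cn I R.1 f g := (hh f hf).trans (hh g hg).symm
  refine Relation.ReflTransGen.mono ?_ _ _ h
  rintro f g ⟨-, h2, v, h3, h4, h5, h6⟩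
  exact ⟨h2, v, h3, h4, h5, h6⟩

end Pool.Agent.Helper16.G4
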